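import Pool.Agent.R296.VC.Fib
import Pool.Agent.R296.RE.Ext

set_option autoImplicit false

/-! # Two-step rotations: the fibres over the abelian factor are covered by few windows -/

namespace Pool.Agent.R296.NR

open Finset Filter Topology Pointwise
open Pool.Agent.R296.VC

noncomputable section

set_option linter.unusedSectionVars false

variable {G : Type} [Group G] [TopologicalSpace G] [IsTopologicalGroup G]

/-- small translations change a continuous function on a compact homogeneous space little -/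
theorem small_trans {Γ : Subgroup G} [CompactSpace (G ⧸ Γ)] (f : C(G ⧸ Γ, ℂ)) {δ : ℝ} (hδ : 0 < δ) :
    ∃ W ∈ 𝓝 (1 : G), ∀ w ∈ W, ∀ p : G ⧸ Γ, ‖f (w • p) - f p‖ ≤ δ := by
  have ho : IsOpen {q : G × (G ⧸ Γ) | ‖f (q.1 • q.2) - f q.2‖ < δ} := by
    refine isOpen_lt ?_ continuous_const
    fun_prop
  obtain ⟨u, v, hu, hv, h1, h2, h3⟩ := generalized_tube_lemma (s := {(1 : G)}) isCompact_singleton
    (t := (Set.univ : Set (G ⧸ Γ))) isCompact_univ (n := {q : G × (G ⧸ Γ) | ‖f (q.1 • q.2) - f q.2‖ < δ}) ho (by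
      rintro ⟨a, b⟩ ⟨ha, -⟩
      rw [Set.mem_singleton_iff] at ha
      simp only at ha
      show ‖f (a • b) - f b‖ < δ
      rw [ha, one_smul, sub_self, norm_zero]
      exact hδ)
  refine ⟨u, hu.mem_nhds (h1 rfl), fun w hw p => ?_⟩
  exact le_of_lt (h3 (Set.mk_mem_prod hw (h2 (Set.mem_univ p))))

/-- `K = Z Γ` is normal if `Z` contains all commutators -/
theorem normal_of (Γ Z : Subgroup G) (hc : ∀ a b : G, a * b * a⁻¹ * b⁻¹ ∈ Z) : (Z ⊔ Γ).Normal := by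
  constructor
  intro n hn g
  have h1 : g * n * g⁻¹ = (g * n * g⁻¹ * n⁻¹) * n := by group
  rw [h1]
  exact mul_mem (Subgroup.mem_sup_left (hc g n)) hn

/-- the factor map to the quotient by a larger group -/
def qm (Γ K : Subgroup G) (h : Γ ≤ K) : G ⧸ Γ → G ⧸ K := Quotient.map' id fun a b hab => by
  rw [QuotientGroup.leftRel_apply] at hab ⊢
  exact h hab

lemma qm_mk (Γ K : Subgroup G) (h : Γ ≤ K) (a : G) : qm Γ K h (a : G ⧸ Γ) = (a : G ⧸ K) := rfl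

lemma qm_cont (Γ K : Subgroup G) (h : Γ ≤ K) : Continuous (qm Γ K h) := by
  refine continuous_quot_lift _ ?_
  exact QuotientGroup.continuous_mk

lemma qm_smul (Γ K : Subgroup G) (h : Γ ≤ K) (g : G) (x : G ⧸ Γ) : qm Γ K h (g • x) = g • qm Γ K h x := by
  induction x using QuotientGroup.induction_on with
  | H a => rfl

/-- two points with the same image differ by an element of the centre -/
lemma fibre {Γ Z : Subgroup G} (hZ : ∀ z ∈ Z, ∀ g : G, z * g = g * z) (x x' : G ⧸ Γ)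
    (h : qm Γ (Z ⊔ Γ) le_sup_right x = qm Γ (Z ⊔ Γ) le_sup_right x') : ∃ z ∈ Z, x' = z • x := by
  have _ : Z.Normal := ⟨fun n hn g => by rw [← hZ n hn g, mul_inv_cancel_right]; exact hn⟩
  induction x using QuotientGroup.induction_on with
  | H a =>
    induction x' using QuotientGroup.induction_on with
    | H b =>
      rw [qm_mk, qm_mk, QuotientGroup.eq] at h
      obtain ⟨z, hz, γ, hγ, h1⟩ := Subgroup.mem_sup_of_normal_left.1 h
      refine ⟨z, hz, ?_⟩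
      show (b : G ⧸ Γ) = ((z * a : G) : G ⧸ Γ)
      rw [eq_comm, QuotientGroup.eq]
      have h2 : (z * a)⁻¹ * b = γ := by
        have h3 : b = a * (z * γ) := by rw [h1]; group
        rw [h3, hZ z hz a]
        group
      rw [h2]
      exact hγ

/-- the fibres are covered by finitely many small translates -/
lemma cover_fib {Γ Z : Subgroup G} (hZ : ∀ z ∈ Z, ∀ g : G, z * g = g * z) {L : Set G} (hL : IsCompact L)
    (hLZ : L ⊆ Z) (hL2 : ∀ z ∈ Z, ∃ l ∈ L, ∃ γ ∈ Γ, z = l * γ) {V : Set G} (hV : V ∈ 𝓝 (1 : G)) :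
    ∃ κ : Finset G, (∀ k ∈ κ, k ∈ Z) ∧ ∀ z ∈ Z, ∃ k ∈ κ, ∃ u ∈ V, u ∈ Z ∧ ∀ x : G ⧸ Γ, z • x = (u * k) • x := by
  classical
  obtain ⟨V', hV', hV1, hVo⟩ : ∃ V', V' ⊆ V ∧ (1 : G) ∈ V' ∧ IsOpen V' := by
    obtain ⟨V', h1, h2, h3⟩ := mem_nhds_iff.1 hV
    exact ⟨V', h1, h3, h2⟩
  obtain ⟨t, htL, htf, ht⟩ := hL.elim_finite_subcover_image (b := L) (c := fun k => (fun l => l * k⁻¹) ⁻¹' V')
    (fun k _ => hVo.preimage (continuous_id.mul continuous_const)) (fun l hl => Set.mem_iUnion₂.2 ⟨l, hl, by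
      show l * l⁻¹ ∈ V'
      rwa [mul_inv_cancel]⟩)
  refine ⟨htf.toFinset, fun k hk => hLZ (htL (htf.mem_toFinset.1 hk)), fun z hz => ?_⟩
  obtain ⟨l, hl, γ, hγ, h1⟩ := hL2 z hz
  obtain ⟨k, hk, h2⟩ := Set.mem_iUnion₂.1 (ht hl)
  have hγZ : γ ∈ Z := by
    have : γ = l⁻¹ * z := by rw [h1]; group
    rw [this]
    exact mul_mem (inv_mem (hLZ hl)) hz
  refine ⟨k, htf.mem_toFinset.2 hk, l * k⁻¹, hV' h2, mul_mem (hLZ hl) (inv_mem (hLZ (htL hk))), fun x => ?_⟩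
  induction x using QuotientGroup.induction_on with
  | H a =>
    show ((z * a : G) : G ⧸ Γ) = ((l * k⁻¹ * k * a : G) : G ⧸ Γ)
    rw [eq_comm, QuotientGroup.eq]
    have h3 : (l * k⁻¹ * k * a)⁻¹ * (z * a) = γ := by
      rw [inv_mul_cancel_right, h1, mul_assoc l γ a, hZ γ hγZ a]
      group
    rw [h3]
    exact hγ

/-- few windows of length `H` approximate the windows of all elements of `E`, for some `H` -/
def Thin (E : Set G) : Prop :=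
  ∀ U ∈ 𝓝 (1 : G), ∀ δ : ℝ, 0 < δ → ∃ H : ℕ, 1 ≤ H ∧ ∃ s : Finset G, (∀ a ∈ s, a ∈ E) ∧ (s.card : ℝ) ≤ δ * H ∧
    ∀ e ∈ E, ∃ a ∈ s, ∀ m < H, (e * a⁻¹) ^ m ∈ U

/-- the skew product, with parameters -/
def TT (Γ : Subgroup G) (E C : Set G) (x : (G ⧸ Γ) × (E × C)) : (G ⧸ Γ) × (E × C) :=
  (((x.2.2 : G) * (x.2.1 : G)) • x.1, x.2)

/-- the factor map -/
def pp (Γ Z : Subgroup G) (E C : Set G) (x : (G ⧸ Γ) × (E × C)) : (G ⧸ (Z ⊔ Γ)) × C :=
  (qm Γ (Z ⊔ Γ) le_sup_right x.1, x.2.2)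

lemma TT_iter (Γ : Subgroup G) (E C : Set G) (x : (G ⧸ Γ) × (E × C)) (m : ℕ) :
    (TT Γ E C)^[m] x = (((x.2.2 : G) * (x.2.1 : G)) ^ m • x.1, x.2) := by
  induction m with
  | zero => simp
  | succ m ih =>
    rw [Function.iterate_succ_apply', ih]
    show (((x.2.2 : G) * (x.2.1 : G)) • ((x.2.2 : G) * (x.2.1 : G)) ^ m • x.1, x.2) = _
    rw [← mul_smul, pow_succ']

lemma TT_cont (Γ : Subgroup G) (E C : Set G) : Continuous (TT Γ E C) := by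
  unfold TT
  fun_prop

lemma pp_cont (Γ Z : Subgroup G) (E C : Set G) : Continuous (pp Γ Z E C) :=
  ((qm_cont _ _ _).comp continuous_fst).prodMk (continuous_snd.comp continuous_snd)

lemma pp_TT {Γ Z : Subgroup G} (hZ : ∀ z ∈ Z, ∀ g : G, z * g = g * z) {E C : Set G} (hE : ∀ e ∈ E, e ∈ Z)
    (x : (G ⧸ Γ) × (E × C)) :
    pp Γ Z E C (TT Γ E C x) = ((x.2.2 : G) • (pp Γ Z E C x).1, (pp Γ Z E C x).2) := by
  show (qm Γ (Z ⊔ Γ) le_sup_right (((x.2.2 : G) * (x.2.1 : G)) • x.1), x.2.2) =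
    ((x.2.2 : G) • qm Γ (Z ⊔ Γ) le_sup_right x.1, x.2.2)
  rw [qm_smul, mul_smul]
  congr 2
  have h1 := hE _ x.2.1.2
  induction qm Γ (Z ⊔ Γ) le_sup_right x.1 using QuotientGroup.induction_on with
  | H a =>
    show (((x.2.1 : G) * a : G) : G ⧸ (Z ⊔ Γ)) = (a : G ⧸ (Z ⊔ Γ))
    rw [eq_comm, QuotientGroup.eq, hZ _ h1 a, inv_mul_cancel_left]
    exact Subgroup.mem_sup_left h1

lemma pow_split {Z : Subgroup G} (hZ : ∀ z ∈ Z, ∀ g : G, z * g = g * z) {z : G} (hz : z ∈ Z) (g : G) (m : ℕ) :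
    (g * z) ^ m = z ^ m * g ^ m := by
  have h : Commute g z := (hZ z hz g).symm
  rw [h.mul_pow, hZ _ (pow_mem hz m)]

lemma alg2 {Z : Subgroup G} (hZ : ∀ z ∈ Z, ∀ g : G, z * g = g * z) {g₀ e a u k : G} (he : e ∈ Z) (ha : a ∈ Z)
    (hu : u ∈ Z) (m : ℕ) : (g₀ * e) ^ m * (u * k) = ((e * a⁻¹) ^ m * u) * ((g₀ * a) ^ m * k) := by
  have hcZ : e * a⁻¹ ∈ Z := mul_mem he (inv_mem ha)
  have e1 : g₀ * e = (g₀ * a) * (e * a⁻¹) := by
    rw [mul_assoc, hZ a ha (e * a⁻¹), inv_mul_cancel_right]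
  have e2 : u * (g₀ * a) ^ m = (g₀ * a) ^ m * u := hZ u hu _
  rw [e1, pow_split hZ hcZ (g₀ * a) m, mul_assoc ((e * a⁻¹) ^ m) u, ← mul_assoc u, e2]
  simp only [mul_assoc]

/-- the covering of the fibres -/
theorem cov_two {Γ Z : Subgroup G} [CompactSpace (G ⧸ Γ)] (hZ : ∀ z ∈ Z, ∀ g : G, z * g = g * z) {L : Set G}
    (hL : IsCompact L) (hLZ : L ⊆ Z) (hL2 : ∀ z ∈ Z, ∃ l ∈ L, ∃ γ ∈ Γ, z = l * γ) {E : Set G} (hE : ∀ e ∈ E, e ∈ Z)
    (hT : Thin E) (C : Set G) (f : C(G ⧸ Γ, ℂ)) (δ : ℝ) (hδ : 0 < δ) :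
    ∃ H : ℕ, 1 ≤ H ∧ ∀ y, CovAt (TT Γ E C) (pp Γ Z E C) (fun x => f x.1) H δ (δ * H) y := by
  classical
  obtain ⟨W, hW, hfW⟩ := small_trans f hδ
  obtain ⟨V, hVo, hV1, hVW⟩ := exists_open_nhds_one_mul_subset hW
  have hV : V ∈ 𝓝 (1 : G) := hVo.mem_nhds hV1
  obtain ⟨κ, hκZ, hκ⟩ := cover_fib hZ hL hLZ hL2 hV
  obtain ⟨H, hH, s, hsE, hs, hs2⟩ := hT V hV (δ / (κ.card + 1)) (by positivity)
  refine ⟨H, hH, ?_⟩
  rintro ⟨y, g₀⟩
  by_cases hy : ∃ x : G ⧸ Γ, qm Γ (Z ⊔ Γ) le_sup_right x = y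
  swap
  · refine ⟨∅, by simpa using by positivity, fun x hx => (hy ⟨x.1, congrArg Prod.fst hx⟩).elim⟩
  obtain ⟨xy, hxy⟩ := hy
  refine ⟨(κ ×ˢ s.attach).image fun q => (q.1 • xy, (⟨q.2.1, hsE _ q.2.2⟩, g₀)), ?_, ?_⟩
  · have h1 : (((κ ×ˢ s.attach).image fun q : G × {a // a ∈ s} =>
        ((q.1 • xy, (⟨q.2.1, hsE _ q.2.2⟩, g₀)) : (G ⧸ Γ) × (E × C))).card : ℝ) ≤ κ.card * s.card := by
      have h2 := card_image_le (s := κ ×ˢ s.attach) (f := fun q : G × {a // a ∈ s} =>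
        ((q.1 • xy, (⟨q.2.1, hsE _ q.2.2⟩, g₀)) : (G ⧸ Γ) × (E × C)))
      rw [card_product, card_attach] at h2
      exact_mod_cast h2
    refine h1.trans ?_
    have h3 : (κ.card : ℝ) * s.card ≤ (κ.card + 1) * (δ / (κ.card + 1) * H) :=
      mul_le_mul (by linarith) hs (Nat.cast_nonneg _) (by positivity)
    refine h3.trans (le_of_eq ?_)
    field_simp
  · rintro ⟨x, e, c⟩ hx
    have hc : c = g₀ := congrArg Prod.snd hx
    subst hc
    have hx' : qm Γ (Z ⊔ Γ) le_sup_right xy = qm Γ (Z ⊔ Γ) le_sup_right x := by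
      rw [hxy]
      exact (congrArg Prod.fst hx).symm
    obtain ⟨z, hz, hzx⟩ := fibre hZ xy x hx'
    obtain ⟨k, hk, u, huV, huZ, hu⟩ := hκ z hz
    obtain ⟨a, ha, hea⟩ := hs2 e e.2
    refine ⟨(k • xy, (⟨a, hsE _ ha⟩, c)), mem_image.2 ⟨(k, ⟨a, ha⟩), mem_product.2 ⟨hk, mem_attach _ _⟩, rfl⟩, ?_⟩
    have h1 : ∀ m ∈ range H,
        ‖f ((TT Γ E C)^[m] (x, (e, c))).1 - f ((TT Γ E C)^[m] (k • xy, (⟨a, hsE _ ha⟩, c))).1‖ ≤ δ := by
      intro m hm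
      rw [TT_iter, TT_iter]
      show ‖f (((c : G) * (e : G)) ^ m • x) - f (((c : G) * a) ^ m • k • xy)‖ ≤ δ
      have h2 : ((c : G) * (e : G)) ^ m • x = (((e : G) * a⁻¹) ^ m * u) • (((c : G) * a) ^ m • k • xy) := by
        rw [hzx, hu xy, smul_smul, alg2 (k := k) hZ (hE _ e.2) (hE _ (hsE _ ha)) huZ m]
        simp only [mul_smul]
      rw [h2]
      exact hfW _ (hVW (Set.mul_mem_mul (hea m (mem_range.1 hm)) huV)) _
    refine (sum_le_sum h1).trans (le_of_eq ?_)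
    rw [sum_const, card_range, nsmul_eq_mul, mul_comm]

end

end Pool.Agent.R296.NR
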