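import Pool.Agent.R296.VC.Fib
import Pool.Agent.R296.SM.Lg

set_option autoImplicit false

/-! # Logarithmic averages of windows along orbits with jumps in the fibres -/

namespace Pool.Agent.R296.NR

open Finset Filter Topology
open Pool.Agent.R296.SM Pool.Agent.R296.RE

noncomputable section

lemma logmean1 {E : Set ℕ} (hE : LDZ E) {M : ℝ} (hM0 : 0 ≤ M) {𝓕 : Set (ℕ → ℂ)} (hM : ∀ a ∈ 𝓕, ∀ n, ‖a n‖ ≤ M)
    {ε : ℝ} (hε : 0 < ε) (h : ∃ N₀ : ℕ, ∀ N ≥ N₀, N ∉ E → ∀ a ∈ 𝓕, ‖∑ m ∈ Icc 1 N, a m‖ ≤ ε / 4 * N) :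
    ∃ N₀ : ℕ, ∀ N ≥ N₀, ∀ a ∈ 𝓕, ‖∑ m ∈ Icc 1 N, (1 / (m : ℂ)) • a m‖ ≤ ε * Real.log N := by
  classical
  obtain ⟨N₁, h1⟩ := h
  have h2 := hE.eventually (gt_mem_nhds (show (0 : ℝ) < ε / (4 * (M + 1)) by positivity))
  obtain ⟨N₂, hN₂⟩ := eventually_atTop.1 h2
  have h3 : ∀ᶠ N : ℕ in atTop, M * (N₁ + 1) + ε / 4 ≤ ε / 4 * Real.log N := by
    have h4 := (Real.tendsto_log_atTop.comp tendsto_natCast_atTop_atTop).eventually_ge_atTop
      ((M * (N₁ + 1) + ε / 4) / (ε / 4))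
    refine h4.mono fun N hN => ?_
    simp only [Function.comp_apply] at hN
    rw [div_le_iff₀ (by positivity)] at hN
    linarith
  obtain ⟨N₃, hN₃⟩ := eventually_atTop.1 h3
  refine ⟨max 2 (max N₂ N₃), fun N hN a ha => ?_⟩
  have hN2 : 2 ≤ N := le_trans (le_max_left _ _) hN
  have e2 := hN₂ N (le_trans (le_max_left _ _) (le_trans (le_max_right _ _) hN))
  have e3 := hN₃ N (le_trans (le_max_right _ _) (le_trans (le_max_right _ _) hN))
  have hlog : 0 < Real.log N := Real.log_pos (by exact_mod_cast (by omega : 1 < N))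
  have hS : ∀ m : ℕ, ‖∑ k ∈ Icc 1 m, a k‖ ≤ M * m := by
    intro m
    refine (norm_sum_le _ _).trans ?_
    calc ∑ k ∈ Icc 1 m, ‖a k‖ ≤ ∑ _k ∈ Icc 1 m, M := sum_le_sum fun k _ => hM a ha k
      _ = M * m := by rw [sum_const, Nat.card_Icc, nsmul_eq_mul, Nat.add_sub_cancel]; ring
  rw [abel]
  have e4 : ‖(1 / ((N : ℂ) + 1)) • ∑ k ∈ Icc 1 N, a k‖ ≤ M := by
    rw [norm_smul, norm_div, norm_one]
    have : ‖(N : ℂ) + 1‖ = N + 1 := by
      rw [← Nat.cast_succ, Complex.norm_natCast]; push_cast; rfl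
    rw [this, one_div, inv_mul_le_iff₀ (by positivity)]
    refine (hS N).trans ?_
    nlinarith
  have e5 : ∀ m ∈ Icc 1 N, ‖(1 / ((m : ℂ) * (m + 1))) • (∑ k ∈ Icc 1 m, a k)‖ ≤
      (if m < N₁ then M else 0) + ε / 4 * (1 / (m : ℝ)) + M * (if m ∈ E then (1 : ℝ) / m else 0) := by
    intro m hm
    rw [mem_Icc] at hm
    have hm0 : (0 : ℝ) < m := by exact_mod_cast hm.1
    have e6 : ‖(1 / ((m : ℂ) * (m + 1)))‖ = 1 / ((m : ℝ) * (m + 1)) := by
      rw [norm_div, norm_one, norm_mul, ← Nat.cast_succ, Complex.norm_natCast, Complex.norm_natCast]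
      push_cast; rfl
    rw [norm_smul, e6]
    have n1 : 0 ≤ ε / 4 * (1 / (m : ℝ)) := by positivity
    by_cases hmE : m ∈ E
    · rw [if_pos hmE]
      have e7 : 1 / ((m : ℝ) * (m + 1)) * ‖∑ k ∈ Icc 1 m, a k‖ ≤ M * (1 / m) := by
        calc 1 / ((m : ℝ) * (m + 1)) * ‖∑ k ∈ Icc 1 m, a k‖ ≤ 1 / ((m : ℝ) * (m + 1)) * (M * m) :=
              mul_le_mul_of_nonneg_left (hS m) (by positivity)
          _ = M * (1 / (m + 1)) := by field_simp
          _ ≤ M * (1 / m) := by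
              apply mul_le_mul_of_nonneg_left _ hM0
              exact one_div_le_one_div_of_le hm0 (by linarith)
      have : 0 ≤ (if m < N₁ then M else 0) := by split_ifs <;> simp [hM0]
      linarith
    · rw [if_neg hmE, mul_zero, add_zero]
      by_cases hm1 : m < N₁
      · rw [if_pos hm1]
        have e7 : 1 / ((m : ℝ) * (m + 1)) * ‖∑ k ∈ Icc 1 m, a k‖ ≤ M := by
          calc 1 / ((m : ℝ) * (m + 1)) * ‖∑ k ∈ Icc 1 m, a k‖ ≤ 1 / ((m : ℝ) * (m + 1)) * (M * m) :=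
                mul_le_mul_of_nonneg_left (hS m) (by positivity)
            _ = M * (1 / (m + 1)) := by field_simp
            _ ≤ M * 1 := by
                apply mul_le_mul_of_nonneg_left _ hM0
                rw [div_le_one (by positivity)]
                linarith
            _ = M := mul_one _
        linarith
      · rw [if_neg hm1, zero_add]
        calc 1 / ((m : ℝ) * (m + 1)) * ‖∑ k ∈ Icc 1 m, a k‖ ≤ 1 / ((m : ℝ) * (m + 1)) * (ε / 4 * m) :=
              mul_le_mul_of_nonneg_left (h1 m (by omega) hmE a ha) (by positivity)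
          _ = ε / 4 * (1 / (m + 1)) := by field_simp
          _ ≤ ε / 4 * (1 / m) := by
              apply mul_le_mul_of_nonneg_left _ (by positivity)
              exact one_div_le_one_div_of_le hm0 (by linarith)
  have e8 : ∑ m ∈ Icc 1 N, (if m < N₁ then M else 0) ≤ M * N₁ := by
    rw [← sum_filter, sum_const, nsmul_eq_mul, mul_comm]
    apply mul_le_mul_of_nonneg_left _ hM0
    have : ((Icc 1 N).filter fun m => m < N₁) ⊆ range N₁ := by
      intro m hm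
      rw [mem_filter] at hm
      exact mem_range.2 hm.2
    have := card_le_card this
    rw [card_range] at this
    exact_mod_cast this
  have e9 : M * ∑ m ∈ Icc 1 N, (if m ∈ E then (1 : ℝ) / m else 0) ≤ ε / 4 * Real.log N := by
    rw [div_lt_iff₀ hlog] at e2
    have hsum : 0 ≤ ∑ m ∈ Icc 1 N, (if m ∈ E then (1 : ℝ) / m else 0) :=
      sum_nonneg fun m _ => by split_ifs <;> positivity
    calc M * ∑ m ∈ Icc 1 N, (if m ∈ E then (1 : ℝ) / m else 0) ≤ (M + 1) * (ε / (4 * (M + 1)) * Real.log N) := by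
          apply mul_le_mul (by linarith) e2.le hsum (by positivity)
      _ = _ := by field_simp
  calc _ ≤ ‖∑ m ∈ Icc 1 N, (1 / ((m : ℂ) * (m + 1))) • (∑ k ∈ Icc 1 m, a k)‖ + M :=
        (norm_add_le _ _).trans (add_le_add le_rfl e4)
    _ ≤ ∑ m ∈ Icc 1 N, ((if m < N₁ then M else 0) + ε / 4 * (1 / (m : ℝ)) + M * (if m ∈ E then (1 : ℝ) / m else 0)) + M :=
        add_le_add ((norm_sum_le _ _).trans (sum_le_sum e5)) le_rfl
    _ ≤ M * N₁ + ε / 4 * (1 + Real.log N) + ε / 4 * Real.log N + M := by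
        rw [sum_add_distrib, sum_add_distrib, ← mul_sum, ← mul_sum]
        have := mul_le_mul_of_nonneg_left (harm_le N) (show 0 ≤ ε / 4 by positivity)
        linarith
    _ ≤ _ := by nlinarith


lemma logmean2 {E : Set ℕ} (hE : LDZ E) {M : ℝ} (hM0 : 0 ≤ M) {𝓕 : Set (ℕ → ℝ)} (h0 : ∀ a ∈ 𝓕, ∀ n, 0 ≤ a n)
    (hM : ∀ a ∈ 𝓕, ∀ n, a n ≤ M)
    {ε : ℝ} (hε : 0 < ε) (h : ∃ N₀ : ℕ, ∀ N ≥ N₀, N ∉ E → ∀ a ∈ 𝓕, ∑ m ∈ Icc 1 N, a m ≤ ε / 4 * N) :
    ∃ N₀ : ℕ, ∀ N ≥ N₀, ∀ a ∈ 𝓕, ∑ m ∈ Icc 1 N, a m / m ≤ ε * Real.log N := by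
  obtain ⟨N₀, h1⟩ := h
  obtain ⟨N₁, h2⟩ := logmean1 hE hM0 (𝓕 := {b | ∃ a ∈ 𝓕, b = fun n => (a n : ℂ)}) (by
    rintro _ ⟨a, ha, rfl⟩ n
    rw [Complex.norm_real, Real.norm_of_nonneg (h0 a ha n)]
    exact hM a ha n) hε ⟨N₀, by
    rintro N hN hNE _ ⟨a, ha, rfl⟩
    rw [← Complex.ofReal_sum, Complex.norm_real, Real.norm_of_nonneg (sum_nonneg fun n _ => h0 a ha n)]
    exact h1 N hN hNE a ha⟩
  refine ⟨N₁, fun N hN a ha => ?_⟩
  have h3 := h2 N hN _ ⟨a, ha, rfl⟩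
  have e : ∑ m ∈ Icc 1 N, (1 / (m : ℂ)) • (a m : ℂ) = ((∑ m ∈ Icc 1 N, a m / m : ℝ) : ℂ) := by
    rw [Complex.ofReal_sum]
    refine sum_congr rfl fun m _ => ?_
    rw [smul_eq_mul]
    push_cast
    ring
  rw [e, Complex.norm_real, Real.norm_of_nonneg (sum_nonneg fun n _ => div_nonneg (h0 a ha n) (Nat.cast_nonneg n))] at h3
  exact h3

variable {X Y : Type*}

theorem log_fib {f : ℕ → ℤ} (hb : ∀ n, |f n| ≤ 1) {E : Set ℕ} (hE0 : LDZ E) {S : Y → Y} {𝒴 : Set Y} {T : X → X}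
    {π : X → Y} (hπT : ∀ x, π (T x) = S (π x)) {F : X → ℂ} {C : ℝ} (hC0 : 0 ≤ C) (hC : ∀ x, ‖F x‖ ≤ C)
    (hfib : ∀ ε : ℝ, 0 < ε → ∃ H₀ : ℕ, ∀ H ≥ H₀, ∃ N₀ : ℕ, ∀ N ≥ N₀, N ∉ E → ∀ y ∈ 𝒴, ∀ x : ℕ → X,
      (∀ n, π (x n) = S^[n] y) → ∀ θ : ℝ,
      ∑ n ∈ range N, ‖∑ m ∈ range H, tw f θ (n + m) * F (T^[m] (x n))‖ ≤ ε * (H * N)) (ε : ℝ) (hε : 0 < ε) :
    ∃ H₀ K : ℕ, ∀ H ≥ H₀, ∀ N : ℕ, H ^ K ≤ N → ∀ y ∈ 𝒴, ∀ x : ℕ → X, (∀ n, π (x n) = S^[n] y) → ∀ θ : ℝ,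
      ∑ n ∈ Icc 1 N, 1 / (n : ℝ) * ‖∑ m ∈ range H, tw f θ (n + m) * F (T^[m] (x n))‖ ≤ ε * (H * Real.log N) := by
  set ε₁ : ℝ := ε / 16 with hε₁
  have hε₁0 : 0 < ε₁ := by positivity
  obtain ⟨H₀', h0⟩ := hfib (ε₁ / 8) (by positivity)
  set H₁ : ℕ := H₀' + 1 with hH₁
  have hH₁0 : (0 : ℝ) < H₁ := by rw [hH₁]; positivity
  obtain ⟨N₀, h1⟩ := h0 H₁ (by omega)
  have hπn : ∀ n x, π (T^[n] x) = S^[n] (π x) := by
    intro n x
    induction n with
    | zero => rfl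
    | succ n ih => rw [Function.iterate_succ_apply', hπT, ih, Function.iterate_succ_apply']
  have hF1 : ∀ θ k z, ‖tw f θ k * F z‖ ≤ C := by
    intro θ k z
    rw [norm_mul]
    calc ‖tw f θ k‖ * ‖F z‖ ≤ 1 * C := mul_le_mul (norm_tw hb θ k) (hC _) (norm_nonneg _) zero_le_one
      _ = C := one_mul C
  set g : ℝ → ℕ → X → ℝ := fun θ k z => ‖∑ j ∈ range H₁, tw f θ (k + j) * F (T^[j] z)‖ with hg
  have hg0 : ∀ θ k z, 0 ≤ g θ k z := fun θ k z => norm_nonneg _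
  have hg1 : ∀ θ k z, g θ k z ≤ H₁ * C := by
    intro θ k z
    refine (norm_sum_le _ _).trans ((sum_le_sum fun m _ => hF1 θ _ _).trans ?_)
    rw [sum_const, card_range, nsmul_eq_mul]
  obtain ⟨N₂, hN₂⟩ := exists_nat_ge (8 * C / ε₁)
  obtain ⟨N₁, h2⟩ := logmean2 hE0 (M := H₁ * C) (by positivity)
    (𝓕 := {a | ∃ y ∈ 𝒴, ∃ x : ℕ → X, (∀ n, π (x n) = S^[n] y) ∧ ∃ θ : ℝ, a = fun n => g θ n (x n)}) (by
    rintro _ ⟨y, hy, x, hx, θ, rfl⟩ n
    exact hg0 _ _ _) (by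
    rintro _ ⟨y, hy, x, hx, θ, rfl⟩ n
    exact hg1 _ _ _) (ε := ε₁ * H₁) (by positivity) ⟨N₀ + N₂, by
    rintro N hN hNE _ ⟨y, hy, x, hx, θ, rfl⟩
    have h3 := h1 N (by omega) hNE y hy x hx θ
    have h4 : ∑ m ∈ Icc 1 N, g θ m (x m) ≤ ∑ m ∈ range (N + 1), g θ m (x m) :=
      sum_le_sum_of_subset_of_nonneg (fun m hm => by
        rw [mem_Icc] at hm
        exact mem_range.2 (by omega)) fun m _ _ => hg0 _ _ _
    rw [sum_range_succ] at h4
    have h5 := hg1 θ N (x N)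
    have h6 : (8 * C / ε₁ : ℝ) ≤ N := hN₂.trans (by exact_mod_cast (by omega : N₂ ≤ N))
    rw [div_le_iff₀ hε₁0] at h6
    have h7 : (H₁ : ℝ) * C ≤ ε₁ / 8 * (H₁ * N) := by nlinarith
    have h8 : ∑ m ∈ range N, g θ m (x m) ≤ ε₁ / 8 * (H₁ * N) := h3
    show ∑ m ∈ Icc 1 N, g θ m (x m) ≤ ε₁ * H₁ / 4 * N
    linarith⟩
  obtain ⟨K', hK'⟩ := exists_nat_ge (8 * C / ε)
  obtain ⟨H₂, hH₂⟩ := exists_nat_ge (16 * (H₁ * C) / ε)
  obtain ⟨H₃, hH₃⟩ := exists_nat_ge (Real.exp (8 * C / ε))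
  refine ⟨N₁ + H₂ + H₃ + 3, K' + 1, fun H hH N hHN y hy x hx θ => ?_⟩
  have hH0 : (0 : ℝ) < H := by exact_mod_cast (by omega : 0 < H)
  have hHN' : H ≤ N := le_trans (by
    calc H = H ^ 1 := (pow_one H).symm
      _ ≤ H ^ (K' + 1) := Nat.pow_le_pow_right (by omega) (by omega)) hHN
  have hN3 : 3 ≤ N := by omega
  have hN0 : (3 : ℝ) ≤ N := by exact_mod_cast hN3
  have hLH : 0 ≤ Real.log H := Real.log_nonneg (by exact_mod_cast (by omega : 1 ≤ H))
  have hLN1 : 1 ≤ Real.log N := by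
    rw [Real.le_log_iff_exp_le (by linarith)]
    linarith [Real.exp_one_lt_d9]
  have hLK : ((K' + 1 : ℕ) : ℝ) * Real.log H ≤ Real.log N := by
    rw [← Real.log_pow]
    exact Real.log_le_log (by positivity) (by exact_mod_cast hHN)
  have hLC : 8 * C / ε ≤ Real.log N := by
    rw [Real.le_log_iff_exp_le (by linarith)]
    exact hH₃.trans (by exact_mod_cast (by omega : H₃ ≤ N))
  -- long windows from short windows
  have h3 : ∀ n, ‖∑ m ∈ range H, tw f θ (n + m) * F (T^[m] (x n))‖ ≤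
      1 / H₁ * ∑ m ∈ range H, g θ (n + m) (T^[m] (x n)) + 2 * H₁ * C := by
    intro n
    have h2 := long_sum (fun m => tw f θ (n + m) * F (T^[m] (x n))) (fun m => hF1 _ _ _) H H₁ (by omega)
    refine h2.trans (le_of_eq ?_)
    congr 2
    refine sum_congr rfl fun m _ => ?_
    rw [hg]
    show ‖∑ j ∈ range H₁, tw f θ (n + (m + j)) * F (T^[m + j] (x n))‖ =
      ‖∑ j ∈ range H₁, tw f θ (n + m + j) * F (T^[j] (T^[m] (x n)))‖
    congr 1
    refine sum_congr rfl fun j _ => ?_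
    rw [← add_assoc, ← Function.iterate_add_apply, add_comm j m]
  have h4 : ∀ m ∈ range H, ∑ n ∈ Icc 1 N, 1 / (n : ℝ) * g θ (n + m) (T^[m] (x n)) ≤
      H₁ * C * (1 + Real.log H) + 4 * ε₁ * H₁ * Real.log N := by
    intro m hm
    rw [mem_range] at hm
    set x' : ℕ → X := fun k => if m ≤ k then T^[m] (x (k - m)) else x k with hx'
    have hx1 : ∀ k, π (x' k) = S^[k] y := by
      intro k
      by_cases hk : m ≤ k
      · simp only [hx', if_pos hk]
        rw [hπn, hx, ← Function.iterate_add_apply, Nat.add_sub_cancel' hk]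
      · simp only [hx', if_neg hk]
        exact hx k
    have h5 := h2 (N + m) (by omega) _ ⟨y, hy, x', hx1, θ, rfl⟩
    have h6 : ∀ n ∈ Icc 1 N, 1 / (n : ℝ) * g θ (n + m) (T^[m] (x n)) ≤
        (if n ≤ H then (H₁ : ℝ) * C * (1 / n) else 0) + 2 * (g θ (n + m) (x' (n + m)) / ((n + m : ℕ) : ℝ)) := by
      intro n hn
      rw [mem_Icc] at hn
      have hn0 : (0 : ℝ) < n := by exact_mod_cast hn.1
      have e1 : x' (n + m) = T^[m] (x n) := by
        simp only [hx', if_pos (Nat.le_add_left m n), Nat.add_sub_cancel]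
      rw [e1]
      have hp : 0 ≤ g θ (n + m) (T^[m] (x n)) := hg0 _ _ _
      by_cases hnH : n ≤ H
      · rw [if_pos hnH]
        have h7 := mul_le_mul_of_nonneg_left (hg1 θ (n + m) (T^[m] (x n))) (show (0 : ℝ) ≤ 1 / n by positivity)
        have h8 : 0 ≤ 2 * (g θ (n + m) (T^[m] (x n)) / ((n + m : ℕ) : ℝ)) := by positivity
        linarith
      · rw [if_neg hnH, zero_add]
        push Not at hnH
        have h9 : (1 : ℝ) / n ≤ 2 / ((n + m : ℕ) : ℝ) := by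
          rw [div_le_div_iff₀ hn0 (by exact_mod_cast (by omega : 0 < n + m))]
          push_cast
          have : (m : ℝ) ≤ n := by exact_mod_cast (by omega : m ≤ n)
          linarith
        have h10 := mul_le_mul_of_nonneg_right h9 hp
        refine h10.trans (le_of_eq ?_)
        ring
    have h7 : ∑ n ∈ Icc 1 N, (if n ≤ H then (H₁ : ℝ) * C * (1 / n) else 0) ≤ H₁ * C * (1 + Real.log H) := by
      rw [← sum_filter, ← mul_sum]
      refine mul_le_mul_of_nonneg_left ?_ (by positivity)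
      refine le_trans (sum_le_sum_of_subset_of_nonneg (t := Icc 1 H) ?_ fun n _ _ => by positivity) (harm_le H)
      intro n hn
      rw [mem_filter, mem_Icc] at hn
      exact mem_Icc.2 ⟨hn.1.1, hn.2⟩
    have h8 : ∑ n ∈ Icc 1 N, g θ (n + m) (x' (n + m)) / ((n + m : ℕ) : ℝ) ≤
        ∑ k ∈ Icc 1 (N + m), g θ k (x' k) / (k : ℝ) := by
      rw [← sum_image (f := fun k : ℕ => g θ k (x' k) / (k : ℝ)) (g := fun n => n + m)
        (s := Icc 1 N) fun a _ b _ hab => by simpa using hab]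
      refine sum_le_sum_of_subset_of_nonneg ?_ fun k _ _ => div_nonneg (hg0 _ _ _) (Nat.cast_nonneg k)
      intro k hk
      obtain ⟨n, hn, rfl⟩ := mem_image.1 hk
      rw [mem_Icc] at hn ⊢
      omega
    have h9 : Real.log ((N + m : ℕ) : ℝ) ≤ 2 * Real.log N := by
      have e2 : 2 * Real.log N = Real.log ((N : ℝ) ^ 2) := by rw [Real.log_pow]; norm_num
      rw [e2]
      refine Real.log_le_log (by exact_mod_cast (by omega : 0 < N + m)) ?_
      push_cast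
      have : (m : ℝ) ≤ N := by exact_mod_cast (by omega : m ≤ N)
      nlinarith
    have h10 : ∑ n ∈ Icc 1 N, 1 / (n : ℝ) * g θ (n + m) (T^[m] (x n)) ≤ H₁ * C * (1 + Real.log H) +
        2 * (ε₁ * H₁ * Real.log ((N + m : ℕ) : ℝ)) := by
      refine (sum_le_sum h6).trans ?_
      rw [sum_add_distrib, ← mul_sum]
      refine add_le_add h7 (mul_le_mul_of_nonneg_left (h8.trans h5) (by norm_num))
    refine h10.trans ?_
    have h11 : ε₁ * H₁ * Real.log ((N + m : ℕ) : ℝ) ≤ ε₁ * H₁ * (2 * Real.log N) :=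
      mul_le_mul_of_nonneg_left h9 (by positivity)
    linarith
  have h12 := harm_le N
  calc ∑ n ∈ Icc 1 N, 1 / (n : ℝ) * ‖∑ m ∈ range H, tw f θ (n + m) * F (T^[m] (x n))‖
      ≤ ∑ n ∈ Icc 1 N, 1 / (n : ℝ) * (1 / H₁ * ∑ m ∈ range H, g θ (n + m) (T^[m] (x n)) + 2 * H₁ * C) :=
        sum_le_sum fun n _ => mul_le_mul_of_nonneg_left (h3 n) (by positivity)
    _ = 1 / H₁ * ∑ m ∈ range H, ∑ n ∈ Icc 1 N, 1 / (n : ℝ) * g θ (n + m) (T^[m] (x n)) +
        2 * H₁ * C * ∑ n ∈ Icc 1 N, 1 / (n : ℝ) := by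
        rw [sum_comm, mul_sum, mul_sum, ← sum_add_distrib]
        refine sum_congr rfl fun n _ => ?_
        rw [← mul_sum]
        ring
    _ ≤ 1 / H₁ * ∑ _m ∈ range H, (H₁ * C * (1 + Real.log H) + 4 * ε₁ * H₁ * Real.log N) +
        2 * H₁ * C * (1 + Real.log N) :=
        add_le_add (mul_le_mul_of_nonneg_left (sum_le_sum h4) (by positivity))
          (mul_le_mul_of_nonneg_left h12 (by positivity))
    _ = H * (C * (1 + Real.log H) + 4 * ε₁ * Real.log N) + 2 * H₁ * C * (1 + Real.log N) := by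
        rw [sum_const, card_range, nsmul_eq_mul]
        field_simp
    _ ≤ ε * (H * Real.log N) := by
        have k1 : C * Real.log H ≤ ε / 8 * Real.log N := by
          have k2 : 8 * C / ε ≤ ((K' + 1 : ℕ) : ℝ) := hK'.trans (by push_cast; linarith)
          have k3 := (mul_le_mul_of_nonneg_right k2 hLH).trans hLK
          have k4 : C * Real.log H = ε / 8 * (8 * C / ε * Real.log H) := by field_simp
          rw [k4]
          exact mul_le_mul_of_nonneg_left k3 (by positivity)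
        have k5 : C ≤ ε / 8 * Real.log N := by
          have k4 : C = ε / 8 * (8 * C / ε) := by field_simp
          calc C = ε / 8 * (8 * C / ε) := k4
            _ ≤ _ := mul_le_mul_of_nonneg_left hLC (by positivity)
        have k6 : (H₁ : ℝ) * C ≤ ε / 16 * H := by
          have k7 : (16 * (H₁ * C) / ε : ℝ) ≤ H := hH₂.trans (by exact_mod_cast (by omega : H₂ ≤ H))
          rw [div_le_iff₀ hε] at k7
          linarith
        have k8 : 2 * H₁ * C * (1 + Real.log N) ≤ 4 * (ε / 16 * H) * Real.log N := by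
          have k9 : (H₁ : ℝ) * C * (1 + Real.log N) ≤ ε / 16 * H * (2 * Real.log N) :=
            mul_le_mul k6 (by linarith) (by linarith) (by positivity)
          linarith
        have k10 : (H : ℝ) * (C * (1 + Real.log H) + 4 * ε₁ * Real.log N) ≤
            H * (ε / 8 * Real.log N + ε / 8 * Real.log N + ε / 4 * Real.log N) := by
          refine mul_le_mul_of_nonneg_left ?_ hH0.le
          rw [hε₁]
          linarith
        have k11 : 0 ≤ ε * (H * Real.log N) := by positivity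
        linarith

end

end Pool.Agent.R296.NR
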