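import Mathlib

set_option autoImplicit false

/-! # Compact null sets of reals are thin -/

namespace Pool.Agent.R296.NR

open Finset Filter Topology MeasureTheory

theorem null_cells {E₀ : Set ℝ} (hE : IsCompact E₀) (h0 : volume E₀ = 0) {r δ : ℝ} (hr : 0 < r) (hδ : 0 < δ) :
    ∃ H : ℕ, 1 ≤ H ∧ ∃ s : Finset ℝ, (∀ a ∈ s, a ∈ E₀) ∧ (s.card : ℝ) ≤ δ * H ∧
      ∀ e ∈ E₀, ∃ a ∈ s, ∀ m < H, |(m : ℝ) * (e - a)| < r := by
  classical
  have h1 := tendsto_measure_cthickening_of_isCompact (μ := (volume : Measure ℝ)) hE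
  rw [h0] at h1
  have h2 := h1.eventually (gt_mem_nhds (show (0 : ENNReal) < ENNReal.ofReal (δ * r) by
    rw [ENNReal.ofReal_pos]; positivity))
  obtain ⟨ρ₀, hρ₀, h3⟩ := Metric.eventually_nhds_iff.1 h2
  obtain ⟨H, hH⟩ := exists_nat_gt (r / ρ₀)
  have hHpos : (0 : ℝ) < H := lt_of_le_of_lt (by positivity) hH
  set ρ : ℝ := r / H with hρ
  have hρ0 : 0 < ρ := by positivity
  have hρlt : ρ < ρ₀ := by
    rw [hρ, div_lt_iff₀ hHpos]
    rw [div_lt_iff₀ hρ₀] at hH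
    linarith
  have h4 : volume (Metric.cthickening ρ E₀) < ENNReal.ofReal (δ * r) := h3 (by
    rw [Real.dist_eq, sub_zero, abs_of_pos hρ0]
    exact hρlt)
  obtain ⟨M, hM⟩ := hE.isBounded.exists_norm_le
  set J : Finset ℤ := (Finset.Icc (⌊-M / ρ⌋) ⌊M / ρ⌋).filter fun j => ∃ t ∈ E₀, ⌊t / ρ⌋ = j with hJ
  have hJmem : ∀ t ∈ E₀, ⌊t / ρ⌋ ∈ J := by
    intro t ht
    have := hM t ht
    rw [Real.norm_eq_abs, abs_le] at this
    refine mem_filter.2 ⟨mem_Icc.2 ⟨Int.floor_mono ?_, Int.floor_mono ?_⟩, t, ht, rfl⟩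
    · exact div_le_div_of_nonneg_right this.1 hρ0.le
    · exact div_le_div_of_nonneg_right this.2 hρ0.le
  have hch : ∀ j ∈ J, ∃ t ∈ E₀, ⌊t / ρ⌋ = j := fun j hj => (mem_filter.1 hj).2
  choose! t ht1 ht2 using hch
  have hcell : ∀ x : ℝ, ((⌊x / ρ⌋ : ℤ) : ℝ) * ρ ≤ x ∧ x < ((⌊x / ρ⌋ : ℤ) : ℝ) * ρ + ρ := by
    intro x
    have h5 := Int.floor_le (x / ρ)
    have h6 := Int.lt_floor_add_one (x / ρ)
    rw [le_div_iff₀ hρ0] at h5
    rw [div_lt_iff₀ hρ0] at h6
    constructor <;> linarith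
  refine ⟨H, Nat.one_le_iff_ne_zero.2 (by rintro rfl; simp at hHpos), J.image t, ?_, ?_, ?_⟩
  · intro a ha
    obtain ⟨j, hj, rfl⟩ := mem_image.1 ha
    exact ht1 j hj
  · -- the cells are disjoint and inside of the thickening
    have h5 : volume (⋃ j ∈ J, Set.Ico ((j : ℝ) * ρ) (j * ρ + ρ)) = J.card * ENNReal.ofReal ρ := by
      rw [measure_biUnion_finset]
      · simp [Real.volume_Ico]
      · intro i _ j _ hij
        rw [Function.onFun, Set.disjoint_left]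
        intro x hx hx'
        apply hij
        have e1 : ∀ k : ℤ, x ∈ Set.Ico ((k : ℝ) * ρ) (k * ρ + ρ) → ⌊x / ρ⌋ = k := by
          intro k hk
          rw [Int.floor_eq_iff]
          constructor
          · rw [le_div_iff₀ hρ0]; exact hk.1
          · rw [div_lt_iff₀ hρ0]; linarith [hk.2]
        rw [← e1 i hx, ← e1 j hx']
      · intro j _
        exact measurableSet_Ico
    have h6 : (⋃ j ∈ J, Set.Ico ((j : ℝ) * ρ) (j * ρ + ρ)) ⊆ Metric.cthickening ρ E₀ := by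
      intro x hx
      obtain ⟨j, hj, hxj⟩ := Set.mem_iUnion₂.1 hx
      refine Metric.mem_cthickening_of_dist_le x (t j) ρ E₀ (ht1 j hj) ?_
      have h7 := hcell (t j)
      rw [ht2 j hj] at h7
      rw [Real.dist_eq, abs_le]
      constructor <;> linarith [hxj.1, hxj.2]
    have h7 : (J.card : ENNReal) * ENNReal.ofReal ρ < ENNReal.ofReal (δ * r) := by
      rw [← h5]
      exact lt_of_le_of_lt (measure_mono h6) h4
    have h8 : (J.card : ℝ) * ρ ≤ δ * r := by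
      rw [← ENNReal.ofReal_natCast, ← ENNReal.ofReal_mul (Nat.cast_nonneg _)] at h7
      exact ((ENNReal.ofReal_lt_ofReal_iff (by positivity)).1 h7).le
    have h9 : ((J.image t).card : ℝ) ≤ J.card := by exact_mod_cast card_image_le
    refine h9.trans ?_
    rw [hρ, ← mul_div_assoc, div_le_iff₀ hHpos] at h8
    have h10 : (J.card : ℝ) * r ≤ (δ * H) * r := by linarith
    exact le_of_mul_le_mul_right h10 hr
  · intro e he
    refine ⟨t ⌊e / ρ⌋, mem_image.2 ⟨_, hJmem e he, rfl⟩, fun m hm => ?_⟩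
    have h5 := hcell e
    have h6 := hcell (t ⌊e / ρ⌋)
    rw [ht2 _ (hJmem e he)] at h6
    have h7 : |e - t ⌊e / ρ⌋| ≤ ρ := by
      rw [abs_le]
      constructor <;> linarith
    rw [abs_mul, Nat.abs_cast]
    have h8 : (m : ℝ) < H := by exact_mod_cast hm
    calc (m : ℝ) * |e - t ⌊e / ρ⌋| ≤ m * ρ := mul_le_mul_of_nonneg_left h7 (Nat.cast_nonneg m)
      _ < H * ρ := mul_lt_mul_of_pos_right h8 hρ0
      _ = r := by rw [hρ]; field_simp

end Pool.Agent.R296.NR
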