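import Pool.Agent.R296.RE.Top

set_option autoImplicit false

/-! # Families of rotations of a compact abelian group are uniformly almost periodic -/

namespace Pool.Agent.R296.NR

open Finset Filter Topology
open Pool.Agent.Helper602.MK (ee)
open Pool.Agent.Helper602.MK.N_J1c (c_ee_add c_ee_int c_norm_ee)
open Pool.Agent.Y842.PH Pool.Agent.Y842.CX Pool.Agent.R296.RE

noncomputable section

variable {Y : Type} [CommGroup Y] [TopologicalSpace Y] [IsTopologicalGroup Y] [CompactSpace Y] [T2Space Y]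

/-- trigonometric approximation along the rotations, with the same number of frequencies for all rotations -/
lemma trigU (f : C(Y, ℂ)) (ε : ℝ) (hε : 0 < ε) : ∃ (s : Finset ℕ) (c : ℕ → ℂ) (χ : ℕ → Y → ℂ),
    (∀ i y, ‖χ i y‖ ≤ 1) ∧ ∀ a : Y, ∃ Q : ℕ → ℝ, ∀ (y : Y) (n : ℕ),
      ‖f ((fun x => a * x)^[n] y) - ∑ i ∈ s, c i * χ i y * ee (Q i * (n : ℝ))‖ ≤ ε := by
  have h2 : f ∈ closure ((Submodule.span ℂ (chars Y) : Submodule ℂ C(Y, ℂ)) : Set C(Y, ℂ)) := by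
    have h1 : f ∈ (Submodule.span ℂ (chars Y)).topologicalClosure := by
      rw [chars_dense]
      trivial
    exact h1
  rw [Metric.mem_closure_iff] at h2
  obtain ⟨g, hg, hd⟩ := h2 ε hε
  have h3 : ∃ (s : Finset ℕ) (c : ℕ → ℂ) (χ : ℕ → Y → ℂ), (∀ i y, ‖χ i y‖ ≤ 1) ∧ ∀ a : Y, ∃ Q : ℕ → ℝ,
      ∀ (y : Y) (n : ℕ), g ((fun x => a * x)^[n] y) = ∑ i ∈ s, c i * χ i y * ee (Q i * (n : ℝ)) := by
    have hg' : g ∈ Submodule.span ℂ (chars Y) := hg
    clear hd hg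
    induction hg' using Submodule.span_induction with
    | mem g hg =>
      obtain ⟨χ, -, hχ⟩ := hg
      refine ⟨{0}, fun _ => 1, fun _ y => (χ y : ℂ), fun _ y => (Circle.norm_coe _).le, fun a => ?_⟩
      obtain ⟨θ, h5⟩ : ∃ θ : ℝ, (χ a : ℂ) = ee θ := by
        refine ⟨Complex.arg (χ a) / (2 * Real.pi), ?_⟩
        have h6 : (χ a : ℂ) = Complex.exp (Complex.arg (χ a) * Complex.I) := by
          have h7 := Complex.norm_mul_exp_arg_mul_I (χ a : ℂ)
          rw [Circle.norm_coe, Complex.ofReal_one, one_mul] at h7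
          exact h7.symm
        conv_lhs => rw [h6]
        unfold ee
        congr 1
        have h8 : (Real.pi : ℂ) ≠ 0 := by exact_mod_cast Real.pi_ne_zero
        push_cast
        field_simp
      refine ⟨fun _ => θ, fun y n => ?_⟩
      rw [sum_singleton, hχ, mul_left_iterate, one_mul]
      show (χ (a ^ n * y) : ℂ) = _
      rw [map_mul, map_pow, Circle.coe_mul, Circle.coe_pow, mul_comm]
      congr 1
      rw [h5]
      unfold ee
      rw [← Complex.exp_nat_mul]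
      congr 1
      push_cast
      ring
    | zero => exact ⟨∅, fun _ => 0, fun _ _ => 0, by simp, fun a => ⟨fun _ => 0, fun y n => by simp⟩⟩
    | add g₁ g₂ _ _ ih₁ ih₂ =>
      obtain ⟨s₁, c₁, χ₁, b₁, h₁'⟩ := ih₁
      obtain ⟨s₂, c₂, χ₂, b₂, h₂'⟩ := ih₂
      refine ⟨s₁.image (fun i => 2 * i) ∪ s₂.image (fun i => 2 * i + 1),
        fun i => if i % 2 = 0 then c₁ (i / 2) else c₂ (i / 2),
        fun i => if i % 2 = 0 then χ₁ (i / 2) else χ₂ (i / 2), fun i y => ?_, fun a => ?_⟩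
      · show ‖(if i % 2 = 0 then χ₁ (i / 2) else χ₂ (i / 2)) y‖ ≤ 1
        split_ifs
        · exact b₁ _ _
        · exact b₂ _ _
      obtain ⟨Q₁, h₁⟩ := h₁' a
      obtain ⟨Q₂, h₂⟩ := h₂' a
      refine ⟨fun i => if i % 2 = 0 then Q₁ (i / 2) else Q₂ (i / 2), fun y n => ?_⟩
      have hdis : Disjoint (s₁.image (fun i => 2 * i)) (s₂.image (fun i => 2 * i + 1)) := by
        rw [Finset.disjoint_left]
        intro a ha hb
        obtain ⟨i, -, hi⟩ := mem_image.1 ha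
        obtain ⟨j, -, hj⟩ := mem_image.1 hb
        omega
      rw [sum_union hdis, sum_image (fun i _ j _ h => by simpa using h), sum_image (fun i _ j _ h => by simpa using h)]
      rw [ContinuousMap.add_apply, h₁ y n, h₂ y n]
      congr 1
      · refine sum_congr rfl fun i _ => ?_
        have e1 : (2 * i) % 2 = 0 := by omega
        have e2 : (2 * i) / 2 = i := by omega
        simp only [e1, e2, if_true]
      · refine sum_congr rfl fun i _ => ?_
        have e1 : ¬ (2 * i + 1) % 2 = 0 := by omega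
        have e2 : (2 * i + 1) / 2 = i := by omega
        simp only [e1, e2, if_false]
    | smul r g₁ _ ih₁ =>
      obtain ⟨s₁, c₁, χ₁, b₁, h₁'⟩ := ih₁
      refine ⟨s₁, fun i => r * c₁ i, χ₁, b₁, fun a => ?_⟩
      obtain ⟨Q₁, h₁⟩ := h₁' a
      refine ⟨Q₁, fun y n => ?_⟩
      rw [ContinuousMap.smul_apply, h₁ y n, smul_eq_mul, mul_sum]
      refine sum_congr rfl fun i _ => ?_
      ring
  obtain ⟨s, c, χ, hχ, h4'⟩ := h3
  refine ⟨s, c, χ, hχ, fun a => ?_⟩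
  obtain ⟨Q, h4⟩ := h4' a
  refine ⟨Q, fun y n => ?_⟩
  rw [← h4 y n]
  have h5 := (f - g).norm_coe_le_norm ((fun x => a * x)^[n] y)
  rw [dist_eq_norm] at hd
  exact h5.trans hd.le


/-- families of rotations with a compact space of parameters -/
theorem UAPU {C : Type} [TopologicalSpace C] [CompactSpace C] (r : C → Y) (𝒴 : Set (Y × C)) (f : C(Y × C, ℂ)) :
    UAP {b | ∃ y ∈ 𝒴, b = fun n => f ((fun q : Y × C => (r q.2 * q.1, q.2))^[n] y)} := by
  classical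
  have hit : ∀ (n : ℕ) (y : Y × C), (fun q : Y × C => (r q.2 * q.1, q.2))^[n] y = ((fun x => r y.2 * x)^[n] y.1, y.2) := by
    intro n y
    induction n with
    | zero => rfl
    | succ n ih => rw [Function.iterate_succ_apply', ih, Function.iterate_succ_apply']
  apply UAP_fin
  intro ε hε
  -- near each parameter the functions are close
  have hnear : ∀ c₀ : C, ∃ U : Set C, IsOpen U ∧ c₀ ∈ U ∧ ∀ c ∈ U, ∀ y, ‖f (y, c) - f (y, c₀)‖ ≤ ε / 2 := by
    intro c₀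
    have ho : IsOpen {q : C × Y | ‖f (q.2, q.1) - f (q.2, c₀)‖ < ε / 2} := by
      refine isOpen_lt ?_ continuous_const
      fun_prop
    obtain ⟨u, v, hu, hv, h1, h2, h3⟩ := generalized_tube_lemma (s := {c₀}) isCompact_singleton
      (t := (Set.univ : Set Y)) isCompact_univ (n := {q : C × Y | ‖f (q.2, q.1) - f (q.2, c₀)‖ < ε / 2}) ho (by
        rintro ⟨a, b⟩ ⟨ha, -⟩
        rw [Set.mem_singleton_iff] at ha
        simp only at ha
        show ‖f (b, a) - f (b, c₀)‖ < ε / 2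
        rw [ha, sub_self, norm_zero]
        positivity)
    exact ⟨u, hu, h1 rfl, fun c hc y => le_of_lt (h3 (Set.mk_mem_prod hc (h2 (Set.mem_univ y))))⟩
  choose U hUo hUc hU using hnear
  have htr : ∀ c₀ : C, ∃ (s : Finset ℕ) (c : ℕ → ℂ) (χ : ℕ → Y → ℂ), (∀ i y, ‖χ i y‖ ≤ 1) ∧ ∀ a : Y, ∃ Q : ℕ → ℝ,
      ∀ (y : Y) (n : ℕ), ‖f ((fun x => a * x)^[n] y, c₀) - ∑ i ∈ s, c i * χ i y * ee (Q i * (n : ℝ))‖ ≤ ε / 2 := by
    intro c₀
    exact trigU (⟨fun y => f (y, c₀), by fun_prop⟩ : C(Y, ℂ)) (ε / 2) (by positivity)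
  choose s c χ hχ hQ using htr
  obtain ⟨t, ht⟩ := isCompact_univ.elim_finite_subcover U hUo fun c₀ _ => Set.mem_iUnion.2 ⟨c₀, hUc c₀⟩
  refine ⟨t.biUnion s, ∑ c₀ ∈ t, ∑ i ∈ s c₀, ‖c c₀ i‖, ?_⟩
  rintro _ ⟨⟨y, p⟩, _, rfl⟩
  obtain ⟨c₀, hc₀, hp⟩ := Set.mem_iUnion₂.1 (ht (Set.mem_univ p))
  obtain ⟨Q, hQ'⟩ := hQ c₀ (r p)
  refine ⟨fun i => if i ∈ s c₀ then c c₀ i * χ c₀ i y else 0, Q, ?_, fun n => ?_⟩
  · have h1 : ∑ i ∈ t.biUnion s, ‖(if i ∈ s c₀ then c c₀ i * χ c₀ i y else 0)‖ =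
        ∑ i ∈ s c₀, ‖c c₀ i * χ c₀ i y‖ := by
      have h2 : s c₀ = (t.biUnion s).filter fun i => i ∈ s c₀ := by
        ext i
        simp only [mem_filter, mem_biUnion]
        exact ⟨fun h => ⟨⟨c₀, hc₀, h⟩, h⟩, fun h => h.2⟩
      conv_rhs => rw [h2]
      rw [sum_filter]
      refine sum_congr rfl fun i _ => ?_
      split_ifs <;> simp
    rw [h1]
    have h3 : ∑ i ∈ s c₀, ‖c c₀ i * χ c₀ i y‖ ≤ ∑ i ∈ s c₀, ‖c c₀ i‖ := by
      refine sum_le_sum fun i _ => ?_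
      rw [norm_mul]
      calc ‖c c₀ i‖ * ‖χ c₀ i y‖ ≤ ‖c c₀ i‖ * 1 := mul_le_mul_of_nonneg_left (hχ c₀ i y) (norm_nonneg _)
        _ = _ := mul_one _
    exact h3.trans (single_le_sum (f := fun c₀ => ∑ i ∈ s c₀, ‖c c₀ i‖)
      (fun c₀ _ => sum_nonneg fun i _ => norm_nonneg _) hc₀)
  · show ‖f ((fun q : Y × C => (r q.2 * q.1, q.2))^[n] (y, p)) -
      ∑ i ∈ t.biUnion s, (if i ∈ s c₀ then c c₀ i * χ c₀ i y else 0) * ee (Q i * (n : ℝ))‖ ≤ ε
    rw [hit]
    have h1 : ∑ i ∈ t.biUnion s, (if i ∈ s c₀ then c c₀ i * χ c₀ i y else 0) * ee (Q i * (n : ℝ)) =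
        ∑ i ∈ s c₀, c c₀ i * χ c₀ i y * ee (Q i * (n : ℝ)) := by
      have h2 : s c₀ = (t.biUnion s).filter fun i => i ∈ s c₀ := by
        ext i
        simp only [mem_filter, mem_biUnion]
        exact ⟨fun h => ⟨⟨c₀, hc₀, h⟩, h⟩, fun h => h.2⟩
      conv_rhs => rw [h2]
      rw [sum_filter]
      refine sum_congr rfl fun i _ => ?_
      split_ifs <;> simp
    rw [h1]
    have h3 := hU c₀ p hp ((fun x => r p * x)^[n] y)
    have h4 := hQ' y n
    have h5 : f ((fun x => r p * x)^[n] y, p) - ∑ i ∈ s c₀, c c₀ i * χ c₀ i y * ee (Q i * (n : ℝ)) =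
        (f ((fun x => r p * x)^[n] y, p) - f ((fun x => r p * x)^[n] y, c₀)) +
        (f ((fun x => r p * x)^[n] y, c₀) - ∑ i ∈ s c₀, c c₀ i * χ c₀ i y * ee (Q i * (n : ℝ))) := by ring
    rw [h5]
    refine (norm_add_le _ _).trans ?_
    linarith

end

end Pool.Agent.R296.NR
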