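import Pool.Agent.R296.NR.A
import Pool.Agent.R296.NR.D

set_option autoImplicit false

/-! # All rotations of a two-step homogeneous space at once -/

namespace Pool.Agent.R296.NR

open Finset Filter Topology Pointwise
open Pool.Agent.R296.VC

noncomputable section

set_option linter.unusedSectionVars false

variable {G : Type} [Group G] [TopologicalSpace G] [IsTopologicalGroup G] {Γ Z : Subgroup G}

/-- `Z ∩ Γ` is normal in the abelian group `Z` -/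
theorem normalZ (hZ : ∀ z ∈ Z, ∀ g : G, z * g = g * z) : (Γ.subgroupOf Z).Normal := by
  constructor
  intro n hn g
  have h1 : g * n * g⁻¹ = n := by
    apply Subtype.ext
    show (g : G) * (n : G) * (g : G)⁻¹ = n
    rw [hZ g g.2 n, mul_inv_cancel_right]
  rw [h1]
  exact hn

/-- the action of `Z` modulo `Z ∩ Γ` -/
def act (hZ : ∀ z ∈ Z, ∀ g : G, z * g = g * z) (d : Z ⧸ (Γ.subgroupOf Z)) (x : G ⧸ Γ) : G ⧸ Γ :=
  Quotient.liftOn' d (fun z => (z : G) • x) (by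
    intro a b hab
    rw [QuotientGroup.leftRel_apply, Subgroup.mem_subgroupOf] at hab
    induction x using QuotientGroup.induction_on with
    | H g =>
      show (((a : G) * g : G) : G ⧸ Γ) = (((b : G) * g : G) : G ⧸ Γ)
      rw [QuotientGroup.eq]
      have h1 : ((a : G) * g)⁻¹ * ((b : G) * g) = ((a⁻¹ * b : Z) : G) := by
        have h2 := hZ _ (a⁻¹ * b : Z).2 g
        have h3 : ((a : G) * g)⁻¹ * ((b : G) * g) = g⁻¹ * (((a⁻¹ * b : Z) : G) * g) := by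
          push_cast
          group
        rw [h3, h2, inv_mul_cancel_left]
      rw [h1]
      exact hab)

lemma act_mk (hZ : ∀ z ∈ Z, ∀ g : G, z * g = g * z) (z : Z) (x : G ⧸ Γ) :
    act hZ (z : Z ⧸ (Γ.subgroupOf Z)) x = (z : G) • x := rfl

lemma act_cont (hZ : ∀ z ∈ Z, ∀ g : G, z * g = g * z) :
    Continuous (fun p : (Z ⧸ (Γ.subgroupOf Z)) × (G ⧸ Γ) => act hZ p.1 p.2) := by
  have h1 : IsOpenQuotientMap (Prod.map (QuotientGroup.mk : Z → Z ⧸ (Γ.subgroupOf Z)) (id : G ⧸ Γ → G ⧸ Γ)) :=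
    QuotientGroup.isOpenQuotientMap_mk.prodMap .id
  rw [← h1.continuous_comp_iff]
  show Continuous (fun p : Z × (G ⧸ Γ) => (p.1 : G) • p.2)
  fun_prop

lemma act_smul (hZ : ∀ z ∈ Z, ∀ g : G, z * g = g * z) (d : Z ⧸ (Γ.subgroupOf Z)) (g : G) (x : G ⧸ Γ) :
    act hZ d (g • x) = g • act hZ d x := by
  induction d using QuotientGroup.induction_on with
  | H z => rw [act_mk, act_mk, smul_smul, smul_smul, hZ z z.2 g]

lemma act_act [(Γ.subgroupOf Z).Normal] (hZ : ∀ z ∈ Z, ∀ g : G, z * g = g * z) (d d' : Z ⧸ (Γ.subgroupOf Z))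
    (x : G ⧸ Γ) : act hZ d (act hZ d' x) = act hZ (d * d') x := by
  induction d using QuotientGroup.induction_on with
  | H z =>
    induction d' using QuotientGroup.induction_on with
    | H z' =>
      show (z : G) • (z' : G) • x = ((z * z' : Z) : G) • x
      rw [smul_smul]
      rfl

lemma act_one [(Γ.subgroupOf Z).Normal] (hZ : ∀ z ∈ Z, ∀ g : G, z * g = g * z) (x : G ⧸ Γ) :
    act hZ (1 : Z ⧸ (Γ.subgroupOf Z)) x = x := by
  show ((1 : Z) : G) • x = x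
  rw [Subgroup.coe_one, one_smul]

lemma smul_base (hZ : ∀ z ∈ Z, ∀ g : G, z * g = g * z) {w : G} (hw : w ∈ Z) (y : G ⧸ (Z ⊔ Γ)) : w • y = y := by
  induction y using QuotientGroup.induction_on with
  | H a =>
    show ((w * a : G) : G ⧸ (Z ⊔ Γ)) = (a : G ⧸ (Z ⊔ Γ))
    rw [eq_comm, QuotientGroup.eq, hZ _ hw a, inv_mul_cancel_left]
    exact Subgroup.mem_sup_left hw

lemma qm_act (hZ : ∀ z ∈ Z, ∀ g : G, z * g = g * z) (d : Z ⧸ (Γ.subgroupOf Z)) (x : G ⧸ Γ) :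
    qm Γ (Z ⊔ Γ) le_sup_right (act hZ d x) = qm Γ (Z ⊔ Γ) le_sup_right x := by
  induction d using QuotientGroup.induction_on with
  | H z => rw [act_mk, qm_smul, smul_base hZ z.2]

/-- the space of all orbits -/
abbrev XX (Γ Z : Subgroup G) (E C : Set G) : Type :=
  (G ⧸ Γ) × ((Z ⧸ (Γ.subgroupOf Z)) × (E × (C × (Z ⧸ (Γ.subgroupOf Z)))))

/-- its abelian factor -/
abbrev YY (Γ Z : Subgroup G) (C : Set G) : Type :=
  ((G ⧸ (Z ⊔ Γ)) × (Z ⧸ (Γ.subgroupOf Z))) × (C × (Z ⧸ (Γ.subgroupOf Z)))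

/-- the dynamics -/
def T2 [(Γ.subgroupOf Z).Normal] (hZ : ∀ z ∈ Z, ∀ g : G, z * g = g * z) (E C : Set G) (x : XX Γ Z E C) : XX Γ Z E C :=
  (act hZ x.2.1 (((x.2.2.2.1 : G) * (x.2.2.1 : G)) • x.1), (x.2.2.2.2 * x.2.1, x.2.2))

/-- the factor map -/
def p2 (Γ Z : Subgroup G) (E C : Set G) (x : XX Γ Z E C) : YY Γ Z C :=
  ((qm Γ (Z ⊔ Γ) le_sup_right x.1, x.2.1), x.2.2.2)

/-- the central part of the orbits -/
def DD [(Γ.subgroupOf Z).Normal] (c d : Z ⧸ (Γ.subgroupOf Z)) : ℕ → Z ⧸ (Γ.subgroupOf Z)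
  | 0 => 1
  | m + 1 => (c ^ m * d) * DD c d m

lemma T2_iter [(Γ.subgroupOf Z).Normal] (hZ : ∀ z ∈ Z, ∀ g : G, z * g = g * z) (E C : Set G) (x : XX Γ Z E C) (m : ℕ) :
    (T2 hZ E C)^[m] x = (act hZ (DD x.2.2.2.2 x.2.1 m) (((x.2.2.2.1 : G) * (x.2.2.1 : G)) ^ m • x.1),
      (x.2.2.2.2 ^ m * x.2.1, x.2.2)) := by
  induction m with
  | zero =>
    show x = (act hZ 1 (((x.2.2.2.1 : G) * (x.2.2.1 : G)) ^ 0 • x.1), (x.2.2.2.2 ^ 0 * x.2.1, x.2.2))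
    rw [act_one, pow_zero, one_smul, pow_zero, one_mul]
  | succ m ih =>
    rw [Function.iterate_succ_apply', ih]
    show (act hZ (x.2.2.2.2 ^ m * x.2.1) (((x.2.2.2.1 : G) * (x.2.2.1 : G)) •
      act hZ (DD x.2.2.2.2 x.2.1 m) (((x.2.2.2.1 : G) * (x.2.2.1 : G)) ^ m • x.1)),
      (x.2.2.2.2 * (x.2.2.2.2 ^ m * x.2.1), x.2.2)) = _
    rw [← act_smul, act_act, smul_smul, ← pow_succ', ← mul_assoc, ← pow_succ']
    rfl

lemma T2_cont [(Γ.subgroupOf Z).Normal] (hZ : ∀ z ∈ Z, ∀ g : G, z * g = g * z) (E C : Set G) :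
    Continuous (T2 (Γ := Γ) hZ E C) := by
  unfold T2
  refine Continuous.prodMk ?_ ?_
  · exact (act_cont hZ).comp (Continuous.prodMk (by fun_prop) (by fun_prop))
  · fun_prop

lemma p2_cont (Γ Z : Subgroup G) (E C : Set G) : Continuous (p2 Γ Z E C) := by
  unfold p2
  refine Continuous.prodMk (Continuous.prodMk ((qm_cont _ _ _).comp continuous_fst) (by fun_prop)) (by fun_prop)

lemma p2_T2 [(Γ.subgroupOf Z).Normal] (hZ : ∀ z ∈ Z, ∀ g : G, z * g = g * z) {E C : Set G} (hE : ∀ e ∈ E, e ∈ Z)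
    (x : XX Γ Z E C) :
    p2 Γ Z E C (T2 hZ E C x) =
      (((x.2.2.2.1 : G) • (p2 Γ Z E C x).1.1, x.2.2.2.2 * (p2 Γ Z E C x).1.2), (p2 Γ Z E C x).2) := by
  show ((qm Γ (Z ⊔ Γ) le_sup_right (act hZ x.2.1 (((x.2.2.2.1 : G) * (x.2.2.1 : G)) • x.1)), x.2.2.2.2 * x.2.1),
    x.2.2.2) = (((x.2.2.2.1 : G) • qm Γ (Z ⊔ Γ) le_sup_right x.1, x.2.2.2.2 * x.2.1), x.2.2.2)
  rw [qm_act, qm_smul, mul_smul, smul_base hZ (hE _ x.2.2.1.2)]

/-- the covering of the fibres -/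
theorem cov2 [CompactSpace (G ⧸ Γ)] [(Γ.subgroupOf Z).Normal] (hZ : ∀ z ∈ Z, ∀ g : G, z * g = g * z) {L : Set G}
    (hL : IsCompact L) (hLZ : L ⊆ Z) (hL2 : ∀ z ∈ Z, ∃ l ∈ L, ∃ γ ∈ Γ, z = l * γ) {E : Set G} (hE : ∀ e ∈ E, e ∈ Z)
    (hT : Thin E) (C : Set G) (f : C(G ⧸ Γ, ℂ)) (δ : ℝ) (hδ : 0 < δ) :
    ∃ H : ℕ, 1 ≤ H ∧ ∀ y, CovAt (T2 hZ E C) (p2 Γ Z E C) (fun x => f x.1) H δ (δ * H) y := by
  classical
  obtain ⟨W, hW, hfW⟩ := small_trans f hδ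
  obtain ⟨V, hVo, hV1, hVW⟩ := exists_open_nhds_one_mul_subset hW
  have hV : V ∈ 𝓝 (1 : G) := hVo.mem_nhds hV1
  obtain ⟨κ, hκZ, hκ⟩ := cover_fib hZ hL hLZ hL2 hV
  obtain ⟨H, hH, s, hsE, hs, hs2⟩ := hT V hV (δ / (κ.card + 1)) (by positivity)
  refine ⟨H, hH, ?_⟩
  rintro ⟨⟨y, d⟩, b, c⟩
  by_cases hy : ∃ x : G ⧸ Γ, qm Γ (Z ⊔ Γ) le_sup_right x = y
  swap
  · refine ⟨∅, by simpa using by positivity, fun x hx => (hy ⟨x.1, congrArg (fun q => q.1.1) hx⟩).elim⟩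
  obtain ⟨xy, hxy⟩ := hy
  refine ⟨(κ ×ˢ s.attach).image fun q => (q.1 • xy, (d, (⟨q.2.1, hsE _ q.2.2⟩, (b, c)))), ?_, ?_⟩
  · have h1 : (((κ ×ˢ s.attach).image fun q : G × {a // a ∈ s} =>
        ((q.1 • xy, (d, (⟨q.2.1, hsE _ q.2.2⟩, (b, c)))) : XX Γ Z E C)).card : ℝ) ≤ κ.card * s.card := by
      have h2 := card_image_le (s := κ ×ˢ s.attach) (f := fun q : G × {a // a ∈ s} =>
        ((q.1 • xy, (d, (⟨q.2.1, hsE _ q.2.2⟩, (b, c)))) : XX Γ Z E C))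
      rw [card_product, card_attach] at h2
      exact_mod_cast h2
    refine h1.trans ?_
    have h3 : (κ.card : ℝ) * s.card ≤ (κ.card + 1) * (δ / (κ.card + 1) * H) :=
      mul_le_mul (by linarith) hs (Nat.cast_nonneg _) (by positivity)
    refine h3.trans (le_of_eq ?_)
    field_simp
  · rintro ⟨x, d', e, b', c'⟩ hx
    have hd : d' = d := congrArg (fun q => q.1.2) hx
    have hb : b' = b := congrArg (fun q => q.2.1) hx
    have hc : c' = c := congrArg (fun q => q.2.2) hx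
    subst hd
    subst hb
    subst hc
    have hx' : qm Γ (Z ⊔ Γ) le_sup_right xy = qm Γ (Z ⊔ Γ) le_sup_right x := by
      rw [hxy]
      exact (congrArg (fun q => q.1.1) hx).symm
    obtain ⟨z, hz, hzx⟩ := fibre hZ xy x hx'
    obtain ⟨k, hk, u, huV, huZ, hu⟩ := hκ z hz
    obtain ⟨a, ha, hea⟩ := hs2 e e.2
    refine ⟨(k • xy, (d', (⟨a, hsE _ ha⟩, (b', c')))),
      mem_image.2 ⟨(k, ⟨a, ha⟩), mem_product.2 ⟨hk, mem_attach _ _⟩, rfl⟩, ?_⟩
    have h1 : ∀ m ∈ range H, ‖f ((T2 hZ E C)^[m] (x, (d', (e, (b', c'))))).1 -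
        f ((T2 hZ E C)^[m] (k • xy, (d', (⟨a, hsE _ ha⟩, (b', c'))))).1‖ ≤ δ := by
      intro m hm
      rw [T2_iter, T2_iter]
      show ‖f (act hZ (DD c' d' m) (((b' : G) * (e : G)) ^ m • x)) -
        f (act hZ (DD c' d' m) (((b' : G) * a) ^ m • k • xy))‖ ≤ δ
      have h2 : ((b' : G) * (e : G)) ^ m • x = (((e : G) * a⁻¹) ^ m * u) • (((b' : G) * a) ^ m • k • xy) := by
        rw [hzx, hu xy, smul_smul, alg2 (k := k) hZ (hE _ e.2) (hE _ (hsE _ ha)) huZ m]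
        simp only [mul_smul]
      rw [h2, act_smul]
      exact hfW _ (hVW (Set.mul_mem_mul (hea m (mem_range.1 hm)) huV)) _
    refine (sum_le_sum h1).trans (le_of_eq ?_)
    rw [sum_const, card_range, nsmul_eq_mul, mul_comm]

/-- compact fundamental domains -/
theorem exists_fund [LocallyCompactSpace G] (Γ : Subgroup G) [CompactSpace (G ⧸ Γ)] :
    ∃ C₀ : Set G, IsCompact C₀ ∧ ∀ g : G, ∃ a ∈ C₀, ∃ γ ∈ Γ, g = a * γ := by
  choose N hNc hN using fun g : G => exists_compact_mem_nhds g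
  obtain ⟨t, ht⟩ := isCompact_univ.elim_finite_subcover (fun g : G => (QuotientGroup.mk : G → G ⧸ Γ) '' interior (N g))
    (fun g => QuotientGroup.isOpenMap_coe _ isOpen_interior) (by
      intro x _
      induction x using QuotientGroup.induction_on with
      | H g => exact Set.mem_iUnion.2 ⟨g, g, mem_interior_iff_mem_nhds.2 (hN g), rfl⟩)
  refine ⟨⋃ g ∈ t, N g, t.isCompact_biUnion fun g _ => hNc g, fun g => ?_⟩
  obtain ⟨g', hg', a, ha, h1⟩ := Set.mem_iUnion₂.1 (ht (Set.mem_univ (g : G ⧸ Γ)))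
  refine ⟨a, Set.mem_iUnion₂.2 ⟨g', hg', interior_subset ha⟩, a⁻¹ * g, QuotientGroup.eq.1 h1, by group⟩

/-- powers of `c` with binomial exponents -/
def cc (c : Z) : ℕ → Z
  | 0 => 1
  | m + 1 => c ^ m * cc c m

lemma DD_cc [(Γ.subgroupOf Z).Normal] (c : Z) (m : ℕ) :
    DD (c : Z ⧸ (Γ.subgroupOf Z)) 1 m = ((cc c m : Z) : Z ⧸ (Γ.subgroupOf Z)) := by
  induction m with
  | zero => rfl
  | succ m ih =>
    show ((c : Z ⧸ (Γ.subgroupOf Z)) ^ m * 1) * DD (c : Z ⧸ (Γ.subgroupOf Z)) 1 m = _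
    rw [ih, mul_one]
    rfl

lemma comm_pow (hZ : ∀ z ∈ Z, ∀ g : G, z * g = g * z) {c : G} (hc : c ∈ Z) {γ b : G} (h : γ * b = c * (b * γ))
    (m : ℕ) : γ ^ m * b = c ^ m * (b * γ ^ m) := by
  induction m with
  | zero => simp
  | succ m ih =>
    calc γ ^ (m + 1) * b = γ ^ m * (γ * b) := by rw [pow_succ, mul_assoc]
      _ = γ ^ m * c * (b * γ) := by rw [h, mul_assoc]
      _ = c * (γ ^ m * b) * γ := by rw [← hZ c hc (γ ^ m)]; simp only [mul_assoc]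
      _ = c * (c ^ m * (b * γ ^ m)) * γ := by rw [ih]
      _ = c ^ (m + 1) * (b * γ ^ (m + 1)) := by rw [pow_succ' c, pow_succ γ]; simp only [mul_assoc]

/-- the orbits of all rotations -/
lemma orbit_alg (hZ : ∀ z ∈ Z, ∀ g : G, z * g = g * z) (c : Z) {g a b' γ : G} (h : γ * b' = (c : G) * (b' * γ))
    (hg : g * a = a * (b' * γ)) (k : ℕ) : g ^ k * a = (cc c k : G) * ((a * b' * a⁻¹) ^ k * (a * γ ^ k)) := by
  induction k with
  | zero =>
    show g ^ 0 * a = ((1 : Z) : G) * _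
    simp
  | succ k ih =>
    have h1 : (cc c (k + 1) : G) = (c : G) ^ k * (cc c k : G) := rfl
    calc g ^ (k + 1) * a = g ^ k * (g * a) := by rw [pow_succ, mul_assoc]
      _ = g ^ k * a * (b' * γ) := by rw [hg, mul_assoc]
      _ = (cc c k : G) * ((a * b' * a⁻¹) ^ k * (a * γ ^ k)) * (b' * γ) := by rw [ih]
      _ = (cc c k : G) * ((a * b' * a⁻¹) ^ k * (a * ((γ ^ k * b') * γ))) := by simp only [mul_assoc]
      _ = (cc c k : G) * ((a * b' * a⁻¹) ^ k * a * ((c : G) ^ k * (b' * γ ^ k * γ))) := by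
          rw [comm_pow hZ c.2 h k]; simp only [mul_assoc]
      _ = (cc c k : G) * (((c : G) ^ k * ((a * b' * a⁻¹) ^ k * a)) * (b' * γ ^ k * γ)) := by
          rw [hZ _ (pow_mem c.2 k) ((a * b' * a⁻¹) ^ k * a)]; simp only [mul_assoc]
      _ = (c : G) ^ k * ((cc c k : G) * (((a * b' * a⁻¹) ^ k * a) * (b' * γ ^ k * γ))) := by
          rw [← mul_assoc, ← mul_assoc (cc c k : G), ← hZ _ (pow_mem c.2 k) (cc c k : G)]; simp only [mul_assoc]
      _ = (cc c (k + 1) : G) * ((a * b' * a⁻¹) ^ (k + 1) * (a * γ ^ (k + 1))) := by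
          rw [h1, pow_succ (a * b' * a⁻¹), pow_succ γ]
          simp only [mul_assoc, inv_mul_cancel_left]

end

end Pool.Agent.R296.NR
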